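import Mathlib

namespace Pool.Agent.Results.MP_aff17b_co.Level

/-- the s-lecture hall simplex in dimension n+1. -/
def simplex {n : ℕ} (s : Fin (n + 1) → ℕ) : Set (Fin (n + 1) → ℝ) :=
  {x | 0 ≤ x 0 / s 0 ∧ (∀ i : Fin n, x i.castSucc / s i.castSucc ≤ x i.succ / s i.succ) ∧
    x (Fin.last n) / s (Fin.last n) ≤ 1}

/-- the cone over P × {1}. -/
def cone {m : ℕ} (P : Set (Fin m → ℝ)) : Set ((Fin m → ℝ) × ℝ) :=
  {q | ∃ t : ℝ, 0 ≤ t ∧ ∃ p ∈ P, q = (t • p, t)}

/-- a lattice point viewed as a real point. -/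
def emb {m : ℕ} (u : (Fin m → ℤ) × ℤ) : (Fin m → ℝ) × ℝ := (fun i => (u.1 i : ℝ), (u.2 : ℝ))

/-- P is level. -/
def IsLevel {m : ℕ} (P : Set (Fin m → ℝ)) : Prop :=
  ∃ d : ℤ, IsLeast {h : ℤ | ∃ x, emb (x, h) ∈ interior (cone P)} d ∧
    ∀ w, emb w ∈ interior (cone P) →
      ∃ u v, emb u ∈ interior (cone P) ∧ u.2 = d ∧ emb v ∈ cone P ∧ w = u + v

variable {n : ℕ} {s : Fin (n + 1) → ℕ}

lemma cone_iff (hs : ∀ i, 0 < s i) (q : (Fin (n + 1) → ℝ) × ℝ) : q ∈ cone (simplex s) ↔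
    0 ≤ q.1 0 / s 0 ∧ (∀ i : Fin n, q.1 i.castSucc / s i.castSucc ≤ q.1 i.succ / s i.succ) ∧
    q.1 (Fin.last n) / s (Fin.last n) ≤ q.2 := by
  constructor
  · rintro ⟨t, ht, p, ⟨h1, h2, h3⟩, rfl⟩
    simp only [Pi.smul_apply, smul_eq_mul, mul_div_assoc]
    exact ⟨mul_nonneg ht h1, fun i => mul_le_mul_of_nonneg_left (h2 i) ht,
      by simpa using mul_le_mul_of_nonneg_left h3 ht⟩
  · obtain ⟨x, h⟩ := q
    rintro ⟨h1, h2, h3⟩
    simp only at h1 h2 h3
    have hm : Monotone (fun i => x i / s i) := Fin.monotone_iff_le_succ.mpr h2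
    have a0 : ∀ i, 0 ≤ x i / s i := fun i => h1.trans (hm (Fin.zero_le i))
    have a1 : ∀ i, x i / s i ≤ h := fun i => (hm (Fin.le_last i)).trans h3
    have hh : 0 ≤ h := (a0 0).trans (a1 0)
    rcases hh.eq_or_lt with rfl | hh
    · refine ⟨0, le_rfl, 0, ⟨by simp, by simp, by simp⟩, ?_⟩
      have : x = 0 := by
        funext i
        have e := le_antisymm (a1 i) (a0 i)
        have : (s i : ℝ) ≠ 0 := by exact_mod_cast (hs i).ne'
        simpa [this] using e
      simp [this]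
    · refine ⟨h, hh.le, h⁻¹ • x, ⟨?_, fun i => ?_, ?_⟩, ?_⟩
      · simp only [Pi.smul_apply, smul_eq_mul, mul_div_assoc]
        exact mul_nonneg (inv_nonneg.mpr hh.le) h1
      · simp only [Pi.smul_apply, smul_eq_mul, mul_div_assoc]
        exact mul_le_mul_of_nonneg_left (h2 i) (inv_nonneg.mpr hh.le)
      · simp only [Pi.smul_apply, smul_eq_mul, mul_div_assoc]
        rw [inv_mul_le_iff₀ hh]
        simpa using h3
      · simp [smul_smul, hh.ne']

lemma push {E : Type} [NormedAddCommGroup E] [NormedSpace ℝ E] {S : Set E} {p : E}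
    (hp : p ∈ interior S) (v : E) : ∃ t : ℝ, 0 < t ∧ p + t • v ∈ S := by
  have h1 : S ∈ nhds p := mem_interior_iff_mem_nhds.mp hp
  have h2 : Filter.Tendsto (fun t : ℝ => p + t • v) (nhds 0) (nhds p) := by
    have : Continuous (fun t : ℝ => p + t • v) := by fun_prop
    simpa using this.tendsto 0
  have h3 : ∀ᶠ t : ℝ in nhdsWithin 0 (Set.Ioi 0), p + t • v ∈ S :=
    (h2.mono_left nhdsWithin_le_nhds) h1
  obtain ⟨t, ht1, ht2⟩ := (h3.and self_mem_nhdsWithin).exists
  exact ⟨t, ht2, ht1⟩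

lemma int_iff (hs : ∀ i, 0 < s i) (q : (Fin (n + 1) → ℝ) × ℝ) : q ∈ interior (cone (simplex s)) ↔
    0 < q.1 0 / s 0 ∧ (∀ i : Fin n, q.1 i.castSucc / s i.castSucc < q.1 i.succ / s i.succ) ∧
    q.1 (Fin.last n) / s (Fin.last n) < q.2 := by
  have hs' : ∀ i, (0 : ℝ) < s i := fun i => by exact_mod_cast hs i
  constructor
  · intro hq
    obtain ⟨t, ht, h⟩ := push hq (fun i => -((i.val : ℝ) + 1) * s i, -((n : ℝ) + 2))
    rw [cone_iff hs] at h
    have e : ∀ i, (q + t • ((fun i => -((i.val : ℝ) + 1) * s i, -((n : ℝ) + 2)) :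
        (Fin (n + 1) → ℝ) × ℝ)).1 i / s i = q.1 i / s i - t * ((i.val : ℝ) + 1) := by
      intro i
      have := (hs' i).ne'
      simp only [Prod.fst_add, Prod.smul_fst, Pi.add_apply, Pi.smul_apply, smul_eq_mul]
      field_simp
      ring
    simp only [e] at h
    obtain ⟨h1, h2, h3⟩ := h
    refine ⟨?_, fun i => ?_, ?_⟩
    · simp at h1; linarith
    · have := h2 i
      simp only [Fin.val_castSucc, Fin.val_succ] at this
      push_cast at this
      linarith
    · simp only [Fin.val_last, Prod.snd_add, Prod.smul_snd, smul_eq_mul] at h3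
      linarith
  · intro hq
    have ho : IsOpen {q : (Fin (n + 1) → ℝ) × ℝ | 0 < q.1 0 / s 0 ∧
        (∀ i : Fin n, q.1 i.castSucc / s i.castSucc < q.1 i.succ / s i.succ) ∧
        q.1 (Fin.last n) / s (Fin.last n) < q.2} := by
      have o1 : IsOpen {q : (Fin (n + 1) → ℝ) × ℝ | 0 < q.1 0 / s 0} :=
        isOpen_lt (by fun_prop) (by fun_prop)
      have o3 : IsOpen {q : (Fin (n + 1) → ℝ) × ℝ | q.1 (Fin.last n) / s (Fin.last n) < q.2} :=
        isOpen_lt (by fun_prop) (by fun_prop)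
      refine IsOpen.inter o1 (IsOpen.inter ?_ o3)
      have := isOpen_iInter_of_finite (fun i : Fin n => isOpen_lt
        (f := fun q : (Fin (n + 1) → ℝ) × ℝ => q.1 i.castSucc / s i.castSucc)
        (g := fun q : (Fin (n + 1) → ℝ) × ℝ => q.1 i.succ / s i.succ) (by fun_prop) (by fun_prop))
      convert this using 1
      ext q
      simp only [Set.mem_iInter, Set.mem_setOf_eq]
      rfl
    refine interior_maximal (fun q hq => ?_) ho hq
    rw [cone_iff hs]
    exact ⟨hq.1.le, fun i => (hq.2.1 i).le, hq.2.2.le⟩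

lemma cone_int (hs : ∀ i, 0 < s i) (u : (Fin (n + 1) → ℤ) × ℤ) : emb u ∈ cone (simplex s) ↔
    0 ≤ u.1 0 ∧ (∀ i : Fin n, u.1 i.castSucc * s i.succ ≤ u.1 i.succ * s i.castSucc) ∧
    u.1 (Fin.last n) ≤ u.2 * s (Fin.last n) := by
  have hs' : ∀ i, (0 : ℝ) < s i := fun i => by exact_mod_cast hs i
  rw [cone_iff hs]
  simp only [emb, div_le_div_iff₀ (hs' _) (hs' _), div_le_iff₀ (hs' _), le_div_iff₀ (hs' _),
    zero_mul]
  norm_cast

lemma int_int (hs : ∀ i, 0 < s i) (u : (Fin (n + 1) → ℤ) × ℤ) :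
    emb u ∈ interior (cone (simplex s)) ↔
    0 < u.1 0 ∧ (∀ i : Fin n, u.1 i.castSucc * s i.succ < u.1 i.succ * s i.castSucc) ∧
    u.1 (Fin.last n) < u.2 * s (Fin.last n) := by
  have hs' : ∀ i, (0 : ℝ) < s i := fun i => by exact_mod_cast hs i
  rw [int_iff hs]
  simp only [emb, div_lt_div_iff₀ (hs' _) (hs' _), div_lt_iff₀ (hs' _), lt_div_iff₀ (hs' _),
    zero_mul]
  norm_cast

lemma trunc (a b p t k : ℤ) (hp : 0 < p) (ht : 0 < t) (h : a * t ≤ b * p) :
    min a (k * p) * t ≤ min b (k * t) * p ∧ (a - min a (k * p)) * t ≤ (b - min b (k * t)) * p := by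
  rcases le_total a (k * p) with h1 | h1 <;> rcases le_total b (k * t) with h2 | h2
  · rw [min_eq_left h1, min_eq_left h2]; constructor <;> nlinarith
  · rw [min_eq_left h1, min_eq_right h2]; constructor <;> nlinarith
  · rw [min_eq_right h1, min_eq_left h2]; constructor <;> nlinarith
  · rw [min_eq_right h1, min_eq_right h2]; constructor <;> nlinarith

theorem result (n : ℕ) (s : Fin (n + 1) → ℕ) (hs : ∀ i, 1 ≤ s i) (c : Fin (n + 1) → ℤ)
    (h0 : c 0 = 1) (hc : ∀ j : Fin n, c j.succ * s j.castSucc =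
      c j.castSucc * s j.succ + Nat.gcd (s j.castSucc) (s j.succ)) :
    IsLevel (simplex s) := by
  have hs1 : ∀ i, 0 < s i := hs
  have hs' : ∀ i, (0 : ℤ) < s i := fun i => by exact_mod_cast hs1 i
  have hg : ∀ j : Fin n, (0 : ℤ) < Nat.gcd (s j.castSucc) (s j.succ) := fun j => by
    exact_mod_cast Nat.gcd_pos_of_pos_left _ (hs1 _)
  have key : ∀ w : (Fin (n + 1) → ℤ) × ℤ, emb w ∈ interior (cone (simplex s)) →
      (∀ i, 0 ≤ w.1 i - c i) ∧ ∀ i : Fin n,
        (w.1 i.castSucc - c i.castSucc) * s i.succ ≤ (w.1 i.succ - c i.succ) * s i.castSucc := by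
    intro w hw
    obtain ⟨a1, a2, a3⟩ := (int_int hs1 w).mp hw
    have b : ∀ i : Fin n,
        (w.1 i.castSucc - c i.castSucc) * s i.succ ≤ (w.1 i.succ - c i.succ) * s i.castSucc := by
      intro i
      have d1 : ((Nat.gcd (s i.castSucc) (s i.succ) : ℕ) : ℤ) ∣
          w.1 i.succ * s i.castSucc - w.1 i.castSucc * s i.succ :=
        dvd_sub (Dvd.dvd.mul_left (Int.natCast_dvd_natCast.mpr (Nat.gcd_dvd_left _ _)) _)
          (Dvd.dvd.mul_left (Int.natCast_dvd_natCast.mpr (Nat.gcd_dvd_right _ _)) _)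
      have d2 := Int.le_of_dvd (by linarith [a2 i]) d1
      linarith [hc i]
    refine ⟨fun i => ?_, b⟩
    induction i using Fin.induction with
    | zero => omega
    | succ i ih =>
      have := (mul_nonneg ih (hs' i.succ).le).trans (b i)
      exact nonneg_of_mul_nonneg_left this (hs' _)
  have hd : c (Fin.last n) < (c (Fin.last n) / s (Fin.last n) + 1) * s (Fin.last n) :=
    Int.lt_ediv_add_one_mul_self _ (hs' _)
  have low : ∀ w : (Fin (n + 1) → ℤ) × ℤ, emb w ∈ interior (cone (simplex s)) →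
      c (Fin.last n) / s (Fin.last n) + 1 ≤ w.2 := by
    intro w hw
    have a3 := ((int_int hs1 w).mp hw).2.2
    have := (key w hw).1 (Fin.last n)
    exact (Int.ediv_lt_iff_lt_mul (hs' _)).mpr (by linarith)
  refine ⟨c (Fin.last n) / s (Fin.last n) + 1, ⟨⟨c, ?_⟩, ?_⟩, ?_⟩
  · rw [int_int hs1]
    exact ⟨by simp [h0], fun i => by linarith [hc i, hg i], hd⟩
  · rintro h ⟨x, hx⟩
    exact low _ hx
  · intro w hw
    obtain ⟨k1, k2⟩ := key w hw
    have k3 := low w hw
    obtain ⟨a1, a2, a3⟩ := (int_int hs1 w).mp hw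
    set d := c (Fin.last n) / s (Fin.last n) + 1 with hdd
    refine ⟨(fun i => w.1 i - min (w.1 i - c i) ((w.2 - d) * s i), d),
      (fun i => min (w.1 i - c i) ((w.2 - d) * s i), w.2 - d), ?_, rfl, ?_, ?_⟩
    · rw [int_int hs1]
      refine ⟨?_, fun i => ?_, ?_⟩
      · have := min_le_left (w.1 0 - c 0) ((w.2 - d) * s 0)
        simp only
        linarith
      · have := (trunc _ _ _ _ (w.2 - d) (hs' i.castSucc) (hs' i.succ) (k2 i)).2
        simp only
        linarith [hc i, hg i]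
      · simp only
        rcases le_total (w.1 (Fin.last n) - c (Fin.last n)) ((w.2 - d) * s (Fin.last n)) with h | h
        · rw [min_eq_left h]; linarith
        · rw [min_eq_right h]; linarith
    · rw [cone_int hs1]
      refine ⟨le_min (k1 0) (mul_nonneg (by linarith) (hs' 0).le), fun i => ?_, min_le_right _ _⟩
      exact (trunc _ _ _ _ (w.2 - d) (hs' i.castSucc) (hs' i.succ) (k2 i)).1
    · ext i <;> simp

end Pool.Agent.Results.MP_aff17b_co.Level
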